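import Mathlib

namespace Pool.Agent.Results.MP_4f7bfc_co.Counter
open Set

/-- the lattice `A ℤ^n` -/
def Lat {n : ℕ} (A : Matrix (Fin n) (Fin n) ℝ) : Set (Fin n → ℝ) :=
  range fun k : Fin n → ℤ => A.mulVec fun i => (k i : ℝ)

def Cov {n : ℕ} (A : Matrix (Fin n) (Fin n) ℝ) (K : Set (Fin n → ℝ)) : Prop :=
  IsCompact K ∧ Convex ℝ K ∧ ∀ p, ∃ y ∈ K, ∃ v ∈ Lat A, p = y + v

def MinCov {n : ℕ} (A : Matrix (Fin n) (Fin n) ℝ) (K : Set (Fin n → ℝ)) : Prop :=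
  Cov A K ∧ ∀ K' ⊂ K, ¬ Cov A K'

def A : Matrix (Fin 3) (Fin 3) ℝ := !![88, -8, -65; 0, 1, 0; 0, 0, 1]
def K0 : Set (Fin 3 → ℝ) := Icc 0 (fun _ => 11) ∩ {z | z 0 + z 1 + z 2 ≤ 11}
def sh (p : Fin 3 → ℝ) (k : Fin 3 → ℤ) : Fin 3 → ℝ :=
  ![p 0 - (88 * k 0 - 8 * k 1 - 65 * k 2), p 1 - k 1, p 2 - k 2]

lemma cv (K : Set (Fin 3 → ℝ)) (p : Fin 3 → ℝ) :
    (∃ y ∈ K, ∃ v ∈ Lat A, p = y + v) ↔ ∃ k, sh p k ∈ K := by
  have e : ∀ k : Fin 3 → ℤ, p = sh p k + A.mulVec fun i => (k i : ℝ) := fun k => by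
    ext i; fin_cases i <;> simp [sh, A, Matrix.mulVec, dotProduct, Fin.sum_univ_three]; ring
  constructor
  · rintro ⟨y, hy, _, ⟨k, rfl⟩, h⟩
    exact ⟨k, add_right_cancel (h.symm.trans (e k)) ▸ hy⟩
  · rintro ⟨k, h⟩
    exact ⟨_, h, _, ⟨k, rfl⟩, e k⟩

lemma mK (z : Fin 3 → ℝ) : z ∈ K0 ↔ 0 ≤ z 0 ∧ 0 ≤ z 1 ∧ 0 ≤ z 2 ∧ z 0 + z 1 + z 2 ≤ 11 := by
  simp only [K0, mem_inter_iff, mem_Icc, Pi.le_def, Fin.forall_fin_succ, mem_setOf_eq]
  simp
  constructor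
  · tauto
  · rintro ⟨a, b, c, d⟩; refine ⟨⟨⟨a, b, c⟩, ?_, ?_, ?_⟩, d⟩ <;> linarith

lemma c0 : Cov A K0 := by
  refine ⟨isCompact_Icc.inter_right (isClosed_le (by fun_prop) (by fun_prop)),
    (convex_Icc _ _).inter ?_, fun p => (cv _ _).2 ?_⟩
  · intro x hx y hy a b ha hb h
    simp only [mem_setOf_eq, Pi.add_apply, Pi.smul_apply, smul_eq_mul] at *
    nlinarith
  · have : ∀ g < 88, ∃ a < 9, ∃ b < 9, ∃ c < 9, a + b + c ≤ 8 ∧ (a + 8 * b + 65 * c) % 88 = g := by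
      decide +kernel
    obtain ⟨a, -, b, -, c, -, h1, h2⟩ := this ((⌊p 0⌋ + 8 * ⌊p 1⌋ + 65 * ⌊p 2⌋) % 88).toNat (by omega)
    obtain ⟨k, hk⟩ : ∃ k : ℤ, 88 * k - 8 * (⌊p 1⌋ - b) - 65 * (⌊p 2⌋ - c) = ⌊p 0⌋ - a :=
      ⟨(⌊p 0⌋ - a + 8 * (⌊p 1⌋ - b) + 65 * (⌊p 2⌋ - c)) / 88, by omega⟩
    refine ⟨![k, ⌊p 1⌋ - b, ⌊p 2⌋ - c], (mK _).2 ?_⟩
    have e : (88 * k - 8 * (⌊p 1⌋ - b) - 65 * (⌊p 2⌋ - c) : ℝ) = ⌊p 0⌋ - a := by exact_mod_cast hk
    have h : (a + b + c : ℝ) ≤ 8 := by exact_mod_cast h1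
    have := Int.floor_le (p 0); have := Int.floor_le (p 1); have := Int.floor_le (p 2)
    have := Int.lt_floor_add_one (p 0); have := Int.lt_floor_add_one (p 1)
    have := Int.lt_floor_add_one (p 2)
    have : (0 : ℝ) ≤ a := by positivity
    have : (0 : ℝ) ≤ b := by positivity
    have : (0 : ℝ) ≤ c := by positivity
    simp [sh]
    refine ⟨?_, ?_, ?_, ?_⟩ <;> linarith

lemma fin (p : Fin 3 → ℝ) : {k | sh p k ∈ K0}.Finite := by
  obtain ⟨M, hM⟩ := exists_int_gt (|p 0| + |p 1| + |p 2| + 11)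
  refine (finite_Icc (fun _ => -M) fun _ => M).subset fun k hk => ?_
  have h := (mK _).1 hk
  simp [sh] at h
  obtain ⟨a, b, c, d⟩ := h
  have := abs_le.1 (le_refl |p 0|); have := abs_le.1 (le_refl |p 1|); have := abs_le.1 (le_refl |p 2|)
  have := abs_nonneg (p 0); have := abs_nonneg (p 1); have := abs_nonneg (p 2)
  have : ∀ i, (-M : ℝ) ≤ k i ∧ (k i : ℝ) ≤ M := by
    simp only [Fin.forall_fin_succ, Fin.succ_zero_eq_one, Fin.succ_one_eq_two, IsEmpty.forall_iff]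
    refine ⟨⟨?_, ?_⟩, ⟨?_, ?_⟩, ⟨?_, ?_⟩, trivial⟩ <;> linarith
  exact ⟨fun i => by exact_mod_cast (this i).1, fun i => by exact_mod_cast (this i).2⟩

lemma zo : ∃ K, Cov A K ∧ K ⊆ K0 ∧ ∀ K' ⊂ K, ¬ Cov A K' := by
  obtain ⟨K, -, hK⟩ := zorn_superset_nonempty {K | Cov A K ∧ K ⊆ K0} (fun c hc ch ne => by
    obtain ⟨K, hK⟩ := ne
    refine ⟨⋂₀ c, ⟨⟨(hc hK).1.1.of_isClosed_subset (isClosed_sInter fun L h => (hc h).1.1.isClosed)
      (sInter_subset_of_mem hK), convex_sInter fun L h => (hc h).1.2.1, fun p => (cv _ _).2 ?_⟩,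
      (sInter_subset_of_mem hK).trans (hc hK).2⟩, fun s hs => sInter_subset_of_mem hs⟩
    have ex : ∃ n, ∃ L ∈ c, {k | sh p k ∈ L}.ncard = n := ⟨_, K, hK, rfl⟩
    classical
    obtain ⟨L, hL, e⟩ := Nat.find_spec ex
    obtain ⟨k, hk⟩ := (cv _ _).1 ((hc hL).1.2.2 p)
    refine ⟨k, fun M hM => ?_⟩
    rcases ch.total hL hM with h | h
    · exact h hk
    · have : {k | sh p k ∈ M} = {k | sh p k ∈ L} := eq_of_subset_of_ncard_le (fun _ a => h a)
        (e ▸ Nat.find_min' ex ⟨M, hM, rfl⟩) ((fin p).subset fun _ a => (hc hL).2 a)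
      exact (Set.ext_iff.1 this k).2 hk) K0 ⟨c0, le_rfl⟩
  exact ⟨K, hK.1.1, hK.1.2, fun L h c => h.2 (hK.2 ⟨c, h.1.trans hK.1.2⟩ h.1)⟩

def Un (a b c s x y z : ℕ) : Prop := (x + 8 * y + 65 * z) % 88 = (a + 8 * b + 65 * c) % 88 →
  50 * (x + y + z) + s ≤ 550 → x = a ∧ y = b ∧ z = c
instance (a b c s x y z) : Decidable (Un a b c s x y z) := by unfold Un; infer_instance

lemma fo {K} (hK : Cov A K ∧ K ⊆ K0) (a b c f g h : ℕ)
    (u : ∀ x < 12, ∀ y < 12, ∀ z < 12, Un a b c (f + g + h) x y z) (l : f < 50 ∧ g < 50 ∧ h < 50) :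
    ![(a : ℝ) + f / 50, b + g / 50, c + h / 50] ∈ K := by
  obtain ⟨k, hk⟩ := (cv _ _).1 (hK.1.2.2 ![(a : ℝ) + f / 50, b + g / 50, c + h / 50])
  have m := (mK _).1 (hK.2 hk)
  simp [sh] at m
  obtain ⟨m1, m2, m3, m4⟩ := m
  have n1 : 50 * (88 * k 0 - 8 * k 1 - 65 * k 2) ≤ 50 * a + f := by
    exact_mod_cast (by linarith : (50 * (88 * k 0 - 8 * k 1 - 65 * k 2) : ℝ) ≤ 50 * a + f)
  have n2 : 50 * k 1 ≤ 50 * b + g := by
    exact_mod_cast (by linarith : (50 * k 1 : ℝ) ≤ 50 * b + g)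
  have n3 : 50 * k 2 ≤ 50 * c + h := by
    exact_mod_cast (by linarith : (50 * k 2 : ℝ) ≤ 50 * c + h)
  have n4 : 50 * (a + b + c - (88 * k 0 - 7 * k 1 - 64 * k 2)) + f + g + h ≤ 550 := by
    exact_mod_cast (by linarith :
      (50 * (a + b + c - (88 * k 0 - 7 * k 1 - 64 * k 2)) + f + g + h : ℝ) ≤ 550)
  obtain ⟨x, hx⟩ := Int.eq_ofNat_of_zero_le (by omega : 0 ≤ a - (88 * k 0 - 8 * k 1 - 65 * k 2))
  obtain ⟨y, hy⟩ := Int.eq_ofNat_of_zero_le (by omega : 0 ≤ b - k 1)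
  obtain ⟨z, hz⟩ := Int.eq_ofNat_of_zero_le (by omega : 0 ≤ c - k 2)
  have := u x (by omega) y (by omega) z (by omega) (by omega) (by omega)
  have e : k 0 = 0 ∧ k 1 = 0 ∧ k 2 = 0 := by omega
  convert hk using 1
  ext i; fin_cases i <;> simp [sh, e]

def la (c : Fin 4 → Fin 4 → ℝ) (i : Fin 4) (z : Fin 3 → ℝ) : ℝ :=
  c i 0 + c i 1 * z 0 + c i 2 * z 1 + c i 3 * z 2

lemma intr {K : Set (Fin 3 → ℝ)} (hK : Convex ℝ K) (p : Fin 4 → Fin 3 → ℝ) (hp : ∀ i, p i ∈ K)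
    (c : Fin 4 → Fin 4 → ℝ) (h1 : ∀ z, ∑ i, la c i z = 1) (h2 : ∀ z, ∑ i, la c i z • p i = z)
    (x : Fin 3 → ℝ) (hx : ∀ i, 0 < la c i x) : x ∈ interior K := by
  refine interior_maximal (t := ⋂ i, {z | 0 < la c i z}) (fun z hz => ?_)
    (isOpen_iInter_of_finite fun i => isOpen_lt (by fun_prop) (by unfold la; fun_prop))
    (mem_iInter.2 hx)
  rw [← h2 z]
  exact hK.sum_mem (fun i _ => (mem_iInter.1 hz i).le) (h1 z) fun i _ => hp i

theorem result : ∃ (n : ℕ) (A : Matrix (Fin n) (Fin n) ℝ) (K S : Set (Fin n → ℝ)) (x : Fin n → ℝ),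
    1 ≤ n ∧ A.det ≠ 0 ∧ MinCov A K ∧ S.Finite ∧ S ⊆ Lat A ∧
    (interior (convexHull ℝ S)).Nonempty ∧ (· + x) '' convexHull ℝ S ⊆ K ∧
    ∃ v ∈ extremePoints ℝ ((· + x) '' convexHull ℝ S), v ∈ interior K := by
  obtain ⟨K, h1, h2, h3⟩ := zo
  have hK : Cov A K ∧ K ⊆ K0 := ⟨h1, h2⟩
  have i0 : ![52/25, 27/25, 379/50] ∈ interior K := intr hK.1.2.1
    ![![399/50, 49/50, 99/50], ![49/50, 49/50, 449/50], ![299/50, 99/50, 149/50], ![99/50, 49/50, 349/50]]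
    (by
      intro i; fin_cases i
      · convert fo hK 7 0 1 49 49 49 (by decide +kernel) (by norm_num) using 1; norm_num
      · convert fo hK 0 0 8 49 49 49 (by decide +kernel) (by norm_num) using 1; norm_num
      · convert fo hK 5 1 2 49 49 49 (by decide +kernel) (by norm_num) using 1; norm_num
      · convert fo hK 1 0 6 49 49 49 (by decide +kernel) (by norm_num) using 1; norm_num
      )
    ![![-351/350, 2/7, -4/7, 1/7], ![-557/70, 5/7, 4/7, 6/7], ![-49/50, 0, 1, 0], ![547/50, -1, -1, -1]]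
    (by intro z; simp [Fin.sum_univ_four, la]; ring)
    (by intro z; ext i; fin_cases i <;> simp [Fin.sum_univ_four, la] <;> ring)
    _ (by intro i; fin_cases i <;> simp [la] <;> norm_num)
  have i1 : ![27/25, 77/25, 29/50] ∈ interior K := intr hK.1.2.1
    ![![49/50, 99/50, 53/50], ![49/50, 249/50, 3/50], ![49/50, 49/50, 53/50], ![99/50, 299/50, 3/50]]
    (by
      intro i; fin_cases i
      · convert fo hK 0 1 1 49 49 3 (by decide +kernel) (by norm_num) using 1; norm_num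
      · convert fo hK 0 4 0 49 49 3 (by decide +kernel) (by norm_num) using 1; norm_num
      · convert fo hK 0 0 1 49 49 3 (by decide +kernel) (by norm_num) using 1; norm_num
      · convert fo hK 1 5 0 49 49 3 (by decide +kernel) (by norm_num) using 1; norm_num
      )
    ![![-106/25, -1, 1, 4], ![51/25, -1, 0, -1], ![209/50, 1, -1, -3], ![-49/50, 1, 0, 0]]
    (by intro z; simp [Fin.sum_univ_four, la]; ring)
    (by intro z; ext i; fin_cases i <;> simp [Fin.sum_univ_four, la] <;> ring)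
    _ (by intro i; fin_cases i <;> simp [la] <;> norm_num)
  have i2 : ![2/25, 152/25, 79/50] ∈ interior K := intr hK.1.2.1
    ![![3/50, 149/50, 149/50], ![3/50, 99/50, 99/50], ![3/50, 399/50, 49/50], ![53/50, 399/50, 49/50]]
    (by
      intro i; fin_cases i
      · convert fo hK 0 2 2 3 49 49 (by decide +kernel) (by norm_num) using 1; norm_num
      · convert fo hK 0 1 1 3 49 49 (by decide +kernel) (by norm_num) using 1; norm_num
      · convert fo hK 0 7 0 3 49 49 (by decide +kernel) (by norm_num) using 1; norm_num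
      · convert fo hK 1 7 0 3 49 49 (by decide +kernel) (by norm_num) using 1; norm_num
      )
    ![![-99/50, 0, 1/7, 6/7], ![149/50, 0, -2/7, -5/7], ![3/50, -1, 1/7, -1/7], ![-3/50, 1, 0, 0]]
    (by intro z; simp [Fin.sum_univ_four, la]; ring)
    (by intro z; ext i; fin_cases i <;> simp [Fin.sum_univ_four, la] <;> ring)
    _ (by intro i; fin_cases i <;> simp [la] <;> norm_num)
  have i3 : ![152/25, 2/25, 179/50] ∈ interior K := intr hK.1.2.1
    ![![49/50, 53/50, 99/50], ![49/50, 3/50, 449/50], ![399/50, 3/50, 99/50], ![199/50, 3/50, 249/50]]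
    (by
      intro i; fin_cases i
      · convert fo hK 0 1 1 49 3 49 (by decide +kernel) (by norm_num) using 1; norm_num
      · convert fo hK 0 0 8 49 3 49 (by decide +kernel) (by norm_num) using 1; norm_num
      · convert fo hK 7 0 1 49 3 49 (by decide +kernel) (by norm_num) using 1; norm_num
      · convert fo hK 3 0 4 49 3 49 (by decide +kernel) (by norm_num) using 1; norm_num
      )
    ![![-3/50, 0, 1, 0], ![-828/175, 3/7, 3, 4/7], ![-803/175, 4/7, 3, 3/7], ![519/50, -1, -7, -1]]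
    (by intro z; simp [Fin.sum_univ_four, la]; ring)
    (by intro z; ext i; fin_cases i <;> simp [Fin.sum_univ_four, la] <;> ring)
    _ (by intro i; fin_cases i <;> simp [la] <;> norm_num)
  let q : Fin 4 → Fin 3 → ℝ := ![![0, 0, 0], ![-1, 2, -7], ![-2, 5, -6], ![4, -1, -4]]
  have s : (· + ![52/25, 27/25, 379/50]) '' convexHull ℝ (range q) ⊆ interior K := by
    rw [image_subset_iff]
    refine convexHull_min ?_ (h1.2.1.interior.translate_preimage_left _)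
    rintro _ ⟨i, rfl⟩
    rw [mem_preimage]
    fin_cases i
    · convert i0 using 1; ext j; fin_cases j <;> simp [q] <;> norm_num
    · convert i1 using 1; ext j; fin_cases j <;> simp [q] <;> norm_num
    · convert i2 using 1; ext j; fin_cases j <;> simp [q] <;> norm_num
    · convert i3 using 1; ext j; fin_cases j <;> simp [q] <;> norm_num
  refine ⟨3, A, K, range q, ![52/25, 27/25, 379/50], by omega, by simp [A, Matrix.det_fin_three], ⟨h1, h3⟩,
    finite_range _, ?_, ⟨![1/4, 3/2, -17/4], ?_⟩, s.trans interior_subset, ?_⟩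
  · rintro _ ⟨i, rfl⟩
    refine ⟨![![0, 0, 0], ![-5, 2, -7], ![-4, 5, -6], ![-3, -1, -4]] i, ?_⟩
    fin_cases i <;> ext j <;> fin_cases j <;>
      simp [q, A, Matrix.mulVec, dotProduct, Fin.sum_univ_three] <;> norm_num
  · exact intr (convex_convexHull _ _) q (fun i => subset_convexHull _ _ (mem_range_self i))
      ![![1, -3/22, -1/11, 3/22], ![0, -13/44, -4/11, -9/44], ![0, 15/88, 4/11, 7/88], ![0, 23/88, 1/11, -1/88]]
      (by intro z; simp [Fin.sum_univ_four, la]; ring)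
      (by intro z; ext i; fin_cases i <;> simp [Fin.sum_univ_four, la, q] <;> ring)
      _ (by intro i; fin_cases i <;> simp [la] <;> norm_num)
  · obtain ⟨v, hv⟩ := (((finite_range q).isCompact_convexHull ℝ).image
      (continuous_add_const ![52/25, 27/25, 379/50])).extremePoints_nonempty
      (Nonempty.image _ (range_nonempty q).convexHull)
    exact ⟨v, hv, s hv.1⟩

end Pool.Agent.Results.MP_4f7bfc_co.Counter
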